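import Pool.Agent.H84.S2.TgE
import Pool.Agent.H77.SF.FCZ

/-!
# MP_70ba79_ag, THEOREM S, part 3, row E_FCD: curves in an affine variety with multiplicities
along the inverse image of the curve, auxiliary components allowed (helper54)
-/

set_option autoImplicit false

namespace Pool.Agent.H54.S2L

open MvPolynomial SC
open Pool.Agent.H27.LV (ge deg poleOrder canDeg DegreeBound)
open Pool.Agent.H84.SM (cr dt dp)
open Pool.Agent.H84.SL (pd)
open Pool.Agent.H92.SF (Q2)
open Pool.Agent.H3.SF (Itg Bb BB Hm eu grd hes Sfc Crd Cnn Crf Prm nv Vl VQ evc FE E)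
open Pool.Agent.H84.SF
open Pool.Agent.H3.S2
open Pool.Agent.H84.S2
open Pool.Agent.H30.AX (reg_aeval ordIdeal mem_ordIdeal ordIdeal_mul ordIdeal_pow le_ordIdeal)

theorem pf_FCD : T_FCD := by
  classical
  intro k K τ _ _ _ _ _ _ I G S m M hI hG σ P φ r J ε ε' E hε hIP hGm hunit Sp z hPz hreg Z hZ
    hGz j0 hZ0'
  have hcomp : ∀ g : MvPolynomial (τ) k, aeval z (aeval φ g) = aeval Z g := fun g => by
    have h : ((aeval z : MvPolynomial σ k →ₐ[k] K).comp (aeval φ)) = aeval Z := by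
      refine MvPolynomial.algHom_ext fun i => ?_
      simp [hZ]
    rw [← h]
    rfl
  have hinv : ∀ N : ℕ, ((Z j0)⁻¹) ^ N ≠ 0 := fun N => pow_ne_zero _ (inv_ne_zero hZ0')
  obtain ⟨z', hz'⟩ : ∃ z' : τ → K, z' = fun j => (Z j0)⁻¹ * Z j := ⟨_, rfl⟩
  rw [← hz']
  have hform : ∀ (g : MvPolynomial (τ) k) (N : ℕ), g.IsHomogeneous N →
      aeval z' g = ((Z j0)⁻¹) ^ N * aeval Z g := fun g N hg => by
    rw [hz']
    exact Pool.Agent.H77.SF.aeval_smul_hom g N hg _ _
  have hone : z' j0 = 1 := by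
    rw [hz']
    exact inv_mul_cancel₀ hZ0'
  have hon : ∀ f ∈ I, aeval z' f = 0 := by
    intro f hf
    rw [← sum_homogeneousComponent f, map_sum]
    refine Finset.sum_eq_zero fun e _ => ?_
    rw [hform _ e (homogeneousComponent_isHomogeneous e f), ← hcomp,
      hPz _ (hIP _ (hI f hf e)), mul_zero]
  refine ⟨hon, ⟨j0, hone⟩, ?_, ?_⟩
  · rw [hform G m hG]
    exact mul_ne_zero (hinv _) hGz
  intro v hv
  have hzv := hreg v hv
  obtain ⟨j1, hj1, hj1'⟩ := Finset.exists_min_image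
    (Finset.univ.filter fun j => Z j ≠ 0) (fun j => v.ord (Z j))
    ⟨j0, Finset.mem_filter.2 ⟨Finset.mem_univ _, hZ0'⟩⟩
  have hj1 : Z j1 ≠ 0 := (Finset.mem_filter.1 hj1).2
  have hle : ∀ j, ge v (v.ord (Z j1)) (Z j) := by
    intro j
    by_cases h0 : Z j = 0
    · exact Or.inl h0
    · exact Or.inr (hj1' j (Finset.mem_filter.2 ⟨Finset.mem_univ _, h0⟩))
  have hord : ∀ j, Z j ≠ 0 → v.ord (z' j) = -(v.ord (Z j0)) + v.ord (Z j) := by
    intro j hj
    rw [hz']
    change v.ord ((Z j0)⁻¹ * Z j) = _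
    rw [v.ord_mul' (inv_ne_zero hZ0') hj, v.ord_inv]
  have hpole : (poleOrder v z' : ℤ) = v.ord (Z j0) - v.ord (Z j1) := by
    have h0 := (hle j0).resolve_left hZ0'
    have hub : poleOrder v z' ≤ (v.ord (Z j0) - v.ord (Z j1)).toNat := by
      unfold poleOrder
      refine Finset.sup_le fun j _ => ?_
      by_cases hj : Z j = 0
      · have h1 : z' j = 0 := by rw [hz']; simp [hj]
        rw [h1, v.ord_zero]
        simp
      · have h1 := hord j hj
        have h2 := (hle j).resolve_left hj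
        omega
    have hlb : (-(v.ord (z' j1))).toNat ≤ poleOrder v z' :=
      Finset.le_sup (f := fun i => (-(v.ord (z' i))).toNat) (Finset.mem_univ j1)
    have h3 := hord j1 hj1
    omega
  set μ : ℤ := v.ord (Z j1) with hμ
  -- the span of the `φ`
  have hsp : Ideal.span (Set.range φ) ≤ ordIdeal v z hzv μ := by
    rw [Ideal.span_le]
    rintro _ ⟨j, rfl⟩
    change ge v μ (aeval z (φ j))
    rw [← hZ]
    exact hle j
  by_cases hcase : ∃ a, J a ≤ ordIdeal v z hzv 1
  · right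
    obtain ⟨a, ha⟩ := hcase
    have h1 : ∏ b, J b ^ ε b ≤ ordIdeal v z hzv M := by
      have h2 : ∏ b, J b ^ ε b ≤ J a ^ ε a := by
        rw [← Finset.mul_prod_erase Finset.univ (fun b => J b ^ ε b) (Finset.mem_univ a)]
        exact Ideal.mul_le_left
      have h3 : J a ^ ε a ≤ J a ^ M := Ideal.pow_le_pow_right (hε a)
      refine h2.trans (h3.trans ((Ideal.pow_right_mono ha M).trans
        ((ordIdeal_pow v z hzv 1 M).trans ?_)))
      rw [mul_one]
    have h2 : (Ideal.span (Set.range φ) ^ m * ∏ a, J a ^ ε a) ⊔ P ≤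
        ordIdeal v z hzv (m * μ + M) :=
      sup_le ((Ideal.mul_mono ((Ideal.pow_right_mono hsp m).trans
        (ordIdeal_pow v z hzv μ m)) h1).trans (ordIdeal_mul v z hzv _ _))
        (le_ordIdeal v z hzv hPz _)
    have h3 := h2 hGm
    rw [mem_ordIdeal, hcomp] at h3
    have h4 := h3.resolve_left hGz
    rw [hform G m hG, v.ord_mul' (hinv _) hGz, v.ord_pow, v.ord_inv, hpole]
    have h5 : (M : ℤ) - m * (v.ord (Z j0) - μ) = (m : ℤ) * -v.ord (Z j0) + (m * μ + M) := by
      ring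
    rw [h5]
    linarith
  · left
    push Not at hcase
    have hex : ∀ a, ∃ g ∈ J a, aeval z g ≠ 0 ∧ v.ord (aeval z g) = 0 := by
      intro a
      obtain ⟨g, hg, hg1⟩ := SetLike.not_le_iff_exists.1 (hcase a)
      rw [mem_ordIdeal, ge, not_or, not_le] at hg1
      refine ⟨g, hg, hg1.1, ?_⟩
      have h0 := (reg_aeval v z hzv g).resolve_left hg1.1
      omega
    choose g hg hg0 hg1 using hex
    obtain ⟨w, hw⟩ : ∃ w : MvPolynomial σ k, w = φ j1 ^ E * ∏ a, g a ^ ε' a := ⟨_, rfl⟩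
    have hwm : w ∈ Ideal.span (Set.range φ) ^ E * ∏ a, J a ^ ε' a := by
      rw [hw]
      refine Ideal.mul_mem_mul (Ideal.pow_mem_pow
        (Ideal.subset_span (Set.mem_range_self j1)) E) ?_
      exact Ideal.prod_mem_prod fun a _ => Ideal.pow_mem_pow (hg a) _
    have hprod : ∀ s : Finset (Fin r), (∏ a ∈ s, aeval z (g a) ^ ε' a) ≠ 0 ∧
        v.ord (∏ a ∈ s, aeval z (g a) ^ ε' a) = 0 := by
      intro s
      induction s using Finset.induction_on with
      | empty =>
        rw [Finset.prod_empty]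
        exact ⟨one_ne_zero, v.ord_one⟩
      | insert a s ha ih =>
        rw [Finset.prod_insert ha]
        refine ⟨mul_ne_zero (pow_ne_zero _ (hg0 a)) ih.1, ?_⟩
        rw [v.ord_mul' (pow_ne_zero _ (hg0 a)) ih.1, v.ord_pow, hg1, ih.2, mul_zero, add_zero]
    have hwz : aeval z w = Z j1 ^ E * ∏ a, aeval z (g a) ^ ε' a := by
      rw [hw, map_mul, map_pow, map_prod, ← hZ]
      simp only [map_pow]
    have hw0 : aeval z w ≠ 0 := by
      rw [hwz]
      exact mul_ne_zero (pow_ne_zero _ hj1) (hprod _).1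
    have hw1 : v.ord (aeval z w) = E * μ := by
      rw [hwz, v.ord_mul' (pow_ne_zero _ hj1) (hprod _).1, v.ord_pow, (hprod _).2, add_zero]
    obtain ⟨h, hhE, hVan, hh0, hh1⟩ : ∃ h : MvPolynomial τ k, h.IsHomogeneous E ∧ Van I G S h ∧
        aeval Z h ≠ 0 ∧ v.ord (aeval Z h) ≤ E * μ := by
      by_contra hcon
      push Not at hcon
      have h1 : Ideal.span {g | ∃ h : MvPolynomial τ k, h.IsHomogeneous E ∧ Van I G S h ∧
          g = aeval φ h} ≤ ordIdeal v z hzv (E * μ + 1) := by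
        rw [Ideal.span_le]
        rintro _ ⟨h, h2, h3, rfl⟩
        change ge v _ (aeval z (aeval φ h))
        rw [hcomp]
        by_cases h4 : aeval Z h = 0
        · exact Or.inl h4
        · right
          have := hcon h h2 h3 h4
          omega
      have h2 := (hunit.trans (sup_le h1 (le_ordIdeal v z hzv hPz _))) hwm
      rw [mem_ordIdeal] at h2
      have h3 := h2.resolve_left hw0
      omega
    have hlow : (E : ℤ) * μ ≤ v.ord (aeval Z h) := by
      have h1 : aeval (fun i => (Z j1)⁻¹ * Z i) h = ((Z j1)⁻¹) ^ E * aeval Z h :=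
        Pool.Agent.H77.SF.aeval_smul_hom h E hhE _ _
      have h2 : ∀ i, 0 ≤ v.ord ((Z j1)⁻¹ * Z i) := by
        intro i
        by_cases hi : Z i = 0
        · rw [hi, mul_zero, v.ord_zero]
        · rw [v.ord_mul' (inv_ne_zero hj1) hi, v.ord_inv]
          have := (hle i).resolve_left hi
          omega
      have h3 := reg_aeval v (fun i => (Z j1)⁻¹ * Z i) h2 h
      rw [h1] at h3
      have h4 := h3.resolve_left (mul_ne_zero (pow_ne_zero _ (inv_ne_zero hj1)) hh0)
      rw [v.ord_mul' (pow_ne_zero _ (inv_ne_zero hj1)) hh0, v.ord_pow, v.ord_inv, ← hμ] at h4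
      linarith
    refine ⟨E, h, hhE, hVan, ?_, ?_⟩
    · rw [hform h E hhE]
      exact mul_ne_zero (hinv _) hh0
    · rw [hform h E hhE, v.ord_mul' (hinv _) hh0, v.ord_pow, v.ord_inv, hpole]
      have : v.ord (aeval Z h) = E * μ := le_antisymm hh1 hlow
      rw [this]
      ring

end Pool.Agent.H54.S2L
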